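import Pool.Agent.X266.CD.Kmap

set_option autoImplicit false

/-!
# The `3x+k` maps and the digits or fractional parts of the starting values

Let `E` be a set of natural numbers `n` given by the residues of digital functions of `n` (for example of the sums of
its digits) in pairwise coprime odd bases, or by the fractional part of `P n` for a polynomial `P` of degree `≥ 2`.
For all maps `T_{3,k}` at once, all functions of the orbits of `± n` have the same averages over the `n ∈ E` as over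
all `n`, with a power saving which is uniform in the functions and in `k`; so all sets which are invariant under
`T_{3,k}` have in `E` their natural densities, and the limit law of the times of the first visits of a finite set (for
example of a cycle) is the same in `E`. Conversely `E`, and even the sparse set of the `n` with
`{P n} < n ^ (-ν)`, decides for every `k` whether all orbits are eventually periodic and whether there are only
finitely many cycles, also after the removal of `C X ^ (1 - ν - θ)` elements up to `X`; the starting values needed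
are bounded polynomially, uniformly in `k`.

Method: a dispersion argument. For `2 ^ j ≤ X ^ (1 / 16)` these functions of the orbit of `x`, `|x| > √X`, are
functions of `T^j(x)` and the number of odd terms before it. For each value of this number the number of the fibres
times their range is about `X`, so that every power saving, on average over `h`, for the correlations of the digital
functions (or phases) at `n` and `n + h` in residue classes modulo `2 ^ j` is a saving for the sum. The last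
assertions follow from this with the function `n ↦ [n reaches a]` and a lower bound, uniform in `k`, for the number
of the `n` in `(X / 2, X]` for which `± n` reaches `a`.
-/

namespace Pool.Agent.Results.MP_7f88e4_nt.DigitClasses

open Filter Topology

/-- the `3x+k` map on the integers -/
def T (k x : ℤ) : ℤ := if x % 2 = 0 then x / 2 else (3 * x + k) / 2

/-- the orbit of `x` is eventually periodic -/
def EvPer (k x : ℤ) : Prop := ∃ m p : ℕ, 1 ≤ p ∧ (T k)^[m + p] x = (T k)^[m] x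

/-- `c` lies on a cycle of `T_{3,k}` -/
def Periodic (k c : ℤ) : Prop := ∃ p : ℕ, 1 ≤ p ∧ (T k)^[p] c = c

/-- the orbit of `x` visits the set `S` for the first time at time `j` -/
def Visits (k : ℤ) (S : Finset ℤ) (j : ℕ) (x : ℤ) : Prop := (T k)^[j] x ∈ S ∧ ∀ i < j, (T k)^[i] x ∉ S

/-- the number of the odd terms among `x, T x, ..., T^(j-1) x` -/
def oddTerms (k : ℤ) (j : ℕ) (x : ℤ) : ℕ := ((Finset.range j).filter fun i => (T k)^[i] x % 2 = 1).card

/-- `F` is bounded by one and takes the same value at integers whose orbits are at some time at the same point. -/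
def Synchronous (k : ℤ) (F : ℤ → ℝ) : Prop :=
  (∀ x, |F x| ≤ 1) ∧ ∀ (j : ℕ) (x y : ℤ), (T k)^[j] x = (T k)^[j] y → F x = F y

/-- `F x` is a function, bounded by one, of the time `j` of the first visit of `S` by the orbit of `x`, the number of
the odd terms before it and the point visited; it is constant on the integers whose orbits do not visit `S`. -/
def OfVisits (k : ℤ) (S : Finset ℤ) (F : ℤ → ℝ) : Prop := ∃ (φ : ℕ → ℕ → ℤ → ℝ) (φ₀ : ℝ),
  (∀ j o a, |φ j o a| ≤ 1) ∧ |φ₀| ≤ 1 ∧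
  ∀ x : ℤ, (∀ j, Visits k S j x → F x = φ j (oddTerms k j x) ((T k)^[j] x)) ∧ ((∀ j, ¬ Visits k S j x) → F x = φ₀)

/-- The functions of the orbits for which the sums up to `X` are compared; the second kind is admitted if `k` and the
elements of `S` are at most `X ^ (1 / 4)` in absolute value. -/
def Orbital (k : ℤ) (X : ℕ) (F : ℤ → ℝ) : Prop := Synchronous k F ∨
  (|(k : ℝ)| ≤ (X : ℝ) ^ (1 / 4 : ℝ) ∧ ∃ S : Finset ℤ, (∀ a ∈ S, |(a : ℝ)| ≤ (X : ℝ) ^ (1 / 4 : ℝ)) ∧ OfVisits k S F)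

open Classical in
/-- the sum of `F (s n)` over the `n ≤ X` in `E` -/
noncomputable def total (F : ℤ → ℝ) (s : ℤ) (E : Set ℕ) (X : ℕ) : ℝ :=
  ∑ n ∈ (Finset.Icc 1 X).filter (fun n => n ∈ E), F (s * n)

/-- the number of the `n ≤ X` in `E` with the property `P` -/
noncomputable def count (E : Set ℕ) (P : ℕ → Prop) (X : ℕ) : ℕ := {n : ℕ | 1 ≤ n ∧ n ≤ X ∧ n ∈ E ∧ P n}.ncard

/-- the positive integers with the property `P` have the natural density `d` -/
def HasDensity (P : ℕ → Prop) (d : ℝ) : Prop :=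
  Tendsto (fun N : ℕ => ({n : ℕ | 1 ≤ n ∧ n ≤ N ∧ P n}.ncard : ℝ) / N) atTop (𝓝 d)

/-- `2 log n / log (4/3) + x * log 3 * √(2 log n / (log (4/3))^3)` -/
noncomputable def bound (x : ℝ) (n : ℕ) : ℝ :=
  2 / Real.log (4 / 3) * Real.log n +
    x * (Real.log 3 * Real.sqrt (2 * Real.log n / Real.log (4 / 3) ^ 3))

/-- The distribution function of the standard normal law. -/
noncomputable def Phi (x : ℝ) : ℝ :=
  ProbabilityTheory.cdf (ProbabilityTheory.gaussianReal 0 1) x

/-- The orbit of `s n` visits `S`; the time `j` of the first visit is at most `bound x n` and congruent to `κ` modulo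
`l`, and the number of the odd terms before it is congruent to `ω` modulo `l`. -/
def Level (k s : ℤ) (S : Finset ℤ) (l : ℕ) (κ ω : ℤ) (x : ℝ) (n : ℕ) : Prop :=
  ∃ j : ℕ, Visits k S j (s * n) ∧ (j : ℝ) ≤ bound x n ∧ (j : ℤ) ≡ κ [ZMOD l] ∧ (oddTerms k j (s * n) : ℤ) ≡ ω [ZMOD l]

/-- `max (|a|, |k|)` -/
noncomputable def size (k a : ℤ) : ℝ := max |(a : ℝ)| |(k : ℝ)|

/-- (Uniform transfer.) For all odd `k`, both signs `s`, all `X ≥ 256` and all functions `F` of the orbits, the sum of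
`F (s n)` over the `n ≤ X` in `E` is `ρ` times the sum over all `n ≤ X`, up to `K (1 + |k|) X ^ (1 - c)`. -/
def Transfers (ρ K c : ℝ) (E : Set ℕ) : Prop :=
  ∀ (k s : ℤ) (X : ℕ) (F : ℤ → ℝ), Odd k → (s = 1 ∨ s = -1) → 256 ≤ X → Orbital k X F →
    |total F s E X - ρ * total F s Set.univ X| ≤ K * (1 + |(k : ℝ)|) * (X : ℝ) ^ (1 - c)

/-- (Laws.) Let `k ≡ 1` or `5` modulo `6` and `s = ± 1`. For every set `R` with `x ∈ R ↔ T x ∈ R` the `n` with
`s n ∈ R` have a density `d`, positive if `R` contains an integer of sign `s` prime to three, and those in `E` have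
the density `ρ d`. For every finite set `S` the `n` for which the orbit of `s n` visits `S` have a density `d`,
positive if `S` contains an integer of sign `s` prime to three; those in `E` have the density `ρ d`, and those in `E`
with the property `Level` have the density `ρ d Φ(x) / l ^ 2`. -/
def Laws (ρ : ℝ) (E : Set ℕ) : Prop :=
  ∀ k : ℤ, (k % 6 = 1 ∨ k % 6 = 5) → ∀ s : ℤ, (s = 1 ∨ s = -1) →
    (∀ R : Set ℤ, (∀ x, x ∈ R ↔ T k x ∈ R) → ∃ d : ℝ, ((∃ a ∈ R, 0 < s * a ∧ ¬ (3 : ℤ) ∣ a) → 0 < d) ∧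
      HasDensity (fun n => s * (n : ℤ) ∈ R) d ∧ HasDensity (fun n => n ∈ E ∧ s * (n : ℤ) ∈ R) (ρ * d)) ∧
    ∀ S : Finset ℤ, ∃ d : ℝ, ((∃ a ∈ S, 0 < s * a ∧ ¬ (3 : ℤ) ∣ a) → 0 < d) ∧
      HasDensity (fun n => ∃ j, Visits k S j (s * n)) d ∧
      HasDensity (fun n => n ∈ E ∧ ∃ j, Visits k S j (s * n)) (ρ * d) ∧
      ∀ (l : ℕ) (κ ω : ℤ) (x : ℝ), 1 ≤ l →
        HasDensity (fun n => n ∈ E ∧ Level k s S l κ ω x n) (ρ * (d * Phi x / l ^ 2))

/-- (The set `E` decides the problem.)

(i) For all `k ≡ 1` or `5` modulo `6` and all sets `R` with `x ∈ R ↔ T x ∈ R`: all nonzero integers are in `R` if and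
only if for both signs `s` and every `ε > 0` there are arbitrarily large `X` such that `s n ∉ R` for at most
`ε X ^ (1 - ν)` of the `n ≤ X` in `E`.

(ii) In particular all orbits of `T_{3,k}` are eventually periodic if and only if this is so for the orbits of the
`s n`, `n ≤ X`, `n ∈ E`, up to `ε X ^ (1 - ν)` exceptions.

(iii) For `θ > 0` and `C` there is `K` such that for every set `B` with at most `C X ^ (1 - ν - θ)` elements in `E` up
to every `X`, and all `k ≡ 1` or `5` modulo `6`: every nonzero integer `a` not divisible by three, for example every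
nonzero periodic point, is an iterate `T^j(± z)` with `z ∈ E`, `z ∉ B`, `|a| ≤ z ≤ K max (|a|, |k|) ^ K`,
`j ≤ K (1 + log max (|a|, |k|))`, with the sign of `a`; for every nonzero integer `a` there are `z ∈ E`, `z ∉ B`,
`z ≤ K max (|a|, |k|) ^ K`, and `i, j ≤ K (1 + log max (|a|, |k|))` with `T^j(± z) = T^i(a)`; and `T_{3,k}` has only
finitely many cycles if and only if the orbits of the `± z`, `z ∈ E`, `z ∉ B`, enter only finitely many cycles. -/
def Decides (ν : ℝ) (E : Set ℕ) : Prop :=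
  (∀ k : ℤ, (k % 6 = 1 ∨ k % 6 = 5) →
    (∀ R : Set ℤ, (∀ x, x ∈ R ↔ T k x ∈ R) → ((∀ x : ℤ, x ≠ 0 → x ∈ R) ↔
      ∀ s : ℤ, (s = 1 ∨ s = -1) → ∀ ε : ℝ, 0 < ε → ∃ᶠ X : ℕ in atTop,
        (count E (fun n => s * (n : ℤ) ∉ R) X : ℝ) ≤ ε * (X : ℝ) ^ (1 - ν))) ∧
    ((∀ x : ℤ, EvPer k x) ↔
      ∀ s : ℤ, (s = 1 ∨ s = -1) → ∀ ε : ℝ, 0 < ε → ∃ᶠ X : ℕ in atTop,
        (count E (fun n => ¬ EvPer k (s * n)) X : ℝ) ≤ ε * (X : ℝ) ^ (1 - ν))) ∧
  ∀ θ C : ℝ, 0 < θ → ∃ K : ℝ, 1 ≤ K ∧ ∀ B : Set ℕ,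
    (∀ X : ℕ, 1 ≤ X → (count E (fun n => n ∈ B) X : ℝ) ≤ C * (X : ℝ) ^ (1 - ν - θ)) →
    ∀ k : ℤ, (k % 6 = 1 ∨ k % 6 = 5) →
      (∀ a : ℤ, a ≠ 0 → (¬ (3 : ℤ) ∣ a ∨ Periodic k a) → ∃ z ∈ E, z ∉ B ∧ |(a : ℝ)| ≤ z ∧
        (z : ℝ) ≤ K * size k a ^ K ∧
        ∃ j : ℕ, (j : ℝ) ≤ K * (1 + Real.log (size k a)) ∧ (T k)^[j] (a.sign * z) = a) ∧
      (∀ a : ℤ, a ≠ 0 → ∃ z ∈ E, z ∉ B ∧ 1 ≤ z ∧ (z : ℝ) ≤ K * size k a ^ K ∧
        ∃ (i j : ℕ) (s : ℤ), (s = 1 ∨ s = -1) ∧ (i : ℝ) ≤ K * (1 + Real.log (size k a)) ∧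
          (j : ℝ) ≤ K * (1 + Real.log (size k a)) ∧ (T k)^[j] (s * z) = (T k)^[i] a) ∧
      ({c : ℤ | Periodic k c}.Finite ↔
        {c : ℤ | Periodic k c ∧ ∃ z ∈ E, z ∉ B ∧ ∃ (j : ℕ) (s : ℤ), (s = 1 ∨ s = -1) ∧ (T k)^[j] (s * z) = c}.Finite)

/-- `W` is a strongly additive function of the digits in base `q`, for example the sum of the digits. -/
def Additive (q : ℕ) (W : ℕ → ℤ) : Prop := ∀ n r, r < q → W (q * n + r) = W n + W r

/-- The greatest common divisor of `m` and of the numbers `W r - r W 1`, `0 ≤ r ≤ q`. For the sum of the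
digits it is the greatest common divisor of `m` and `q - 1`. -/
def obstruction (q : ℕ) (W : ℕ → ℤ) (m : ℕ) : ℕ :=
  Nat.gcd m ((Finset.range (q + 1)).gcd fun r => (W r - r * W 1).natAbs)

/-- The set of the `n` with `W i n ≡ a i` modulo `m i` for all `i`. -/
def Class {r : ℕ} (m : Fin r → ℕ) (W : Fin r → ℕ → ℤ) (a : Fin r → ℤ) : Set ℕ :=
  {n | ∀ i, (m i : ℤ) ∣ W i n - a i}

/-- `α` is irrational and not a Liouville number. -/
def Diophantine (α : ℝ) : Prop :=
  ∃ A c : ℝ, 0 < c ∧ ∀ l : ℕ, 1 ≤ l → ∀ a : ℤ, c * (l : ℝ) ^ (-A) ≤ |l * α - a|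

/-- The set of the `n` for which the fractional part of `P n` is in `[u, v)`. -/
def Part (P : Polynomial ℝ) (u v : ℝ) : Set ℕ := {n | u ≤ Int.fract (P.eval (n : ℝ)) ∧ Int.fract (P.eval (n : ℝ)) < v}

/-- The set of the `n` for which the fractional part of `P n` is less than `n ^ (-ν)`. -/
def Sparse (P : Polynomial ℝ) (ν : ℝ) : Set ℕ := {n | Int.fract (P.eval (n : ℝ)) < (n : ℝ) ^ (-ν)}

open Pool.Agent.Y965.PL Pool.Agent.X266.CD Pool.Agent.Y55.DS
open Pool.Agent.Y965.PS (Tz ac ac_succ)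
open Pool.Agent.H499R2.LT (Dn_iff)
open Pool.Agent.H499R2.ND (Dn)

theorem odd_ac (k : ℤ) (j : ℕ) (x : ℤ) : oddTerms k j x = ac k j x := by
  unfold oddTerms
  induction j with
  | zero => rfl
  | succ j ih =>
    rw [Finset.range_add_one, Finset.filter_insert, ac_succ, ← ih]
    have e : (T k)^[j] x = (Tz k)^[j] x := rfl
    by_cases h : (Tz k)^[j] x % 2 = 0
    · rw [if_neg (by rw [e]; omega), if_pos h, Nat.add_zero]
    · rw [if_pos (by rw [e]; omega), if_neg h, Finset.card_insert_of_notMem (by simp)]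

theorem total_eq (F : ℤ → ℝ) (s : ℤ) (E : Set ℕ) (X : ℕ) :
    total F s E X = ∑ n ∈ Finset.Icc 1 X, ind (fun n => n ∈ E) n * F (s * n) := by
  classical
  unfold total
  rw [sum_wt]

theorem total_univ (F : ℤ → ℝ) (s : ℤ) (X : ℕ) :
    total F s Set.univ X = ∑ n ∈ Finset.Icc 1 X, (fun _ => (1 : ℝ)) n * F (s * n) := by
  rw [total_eq]
  apply Finset.sum_congr rfl
  intro n _
  rw [ind_pos (P := fun n => n ∈ Set.univ) (Set.mem_univ n)]

theorem count_eq (E : Set ℕ) (P : ℕ → Prop) (X : ℕ) :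
    (count E P X : ℝ) = ∑ n ∈ Finset.Icc 1 X, ind (fun n => n ∈ E) n * ind P n := count_sum X (fun n => n ∈ E) P

theorem ofVisits_eq {k : ℤ} {S : Finset ℤ} {F : ℤ → ℝ} (h : OfVisits k S F) :
    ∃ (g : ℕ → ℕ → ℤ → ℝ) (g0 : ℝ), (∀ j o z, |g j o z| ≤ 1) ∧ |g0| ≤ 1 ∧ F = Fv k S g g0 := by
  obtain ⟨φ, φ₀, h1, h2, h3⟩ := h
  refine ⟨φ, φ₀, h1, h2, ?_⟩
  funext n
  by_cases h : ∃ j, FVis k S j n
  · obtain ⟨j, hj⟩ := h
    rw [Fv_pos hj, (h3 n).1 j hj, odd_ac]
    rfl
  · rw [Fv_neg h, (h3 n).2 fun j hj => h ⟨j, hj⟩]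

theorem hd_of_mn {E : Set ℕ} {P : ℕ → Prop} {d : ℝ} (h : Mn (fun n => ind (fun n => n ∈ E) n * ind P n) d) :
    HasDensity (fun n => n ∈ E ∧ P n) d := by
  unfold Mn at h
  refine h.congr fun N => ?_
  rw [← count_sum]

theorem transfers_of {E : Set ℕ} {ρ C c : ℝ} (hT : TrK (ind (fun n => n ∈ E)) (fun _ => 1) ρ C c) :
    Transfers ρ C c E := by
  intro k s X F hk hs hX hF
  have hk2 : k % 2 = 1 := Int.odd_iff.1 hk
  rw [total_eq, total_univ]
  rcases hF with hF | ⟨hkX, S, hS, hF⟩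
  · exact hT X (by omega) k s F hk2 hs (syncK_syncG hF X)
  · obtain ⟨g, g0, hg, hg0, rfl⟩ := ofVisits_eq hF
    exact hT X (by omega) k s _ hk2 hs (syncK_Fv hk2 hX hS hkX hg hg0)

theorem laws_of {E : Set ℕ} {ρ C c : ℝ} (hρ : 0 < ρ) (hC : 0 ≤ C) (hc0 : 0 < c) (hc1 : c ≤ 1)
    (hT : TrK (ind (fun n => n ∈ E)) (fun _ => 1) ρ C c) : Laws ρ E := by
  intro k hk s hs
  have hk2 : k % 2 = 1 := by omega
  have hk3 : ¬ (3 : ℤ) ∣ k := by omega
  refine ⟨fun R hR => ?_, fun S => ?_⟩
  · obtain ⟨d, -, -, h2, h3⟩ := inv_dens hk2 hk3 hs (S := R) hR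
    exact ⟨d, h3, h2, hd_of_mn (dens_invK hk2 hs hR h2 hc0 hT)⟩
  · obtain ⟨δ, h0, hpos, hδ, -⟩ := Pool.Agent.H499R2.LT.joint_side (d := k) (Int.odd_iff.2 hk2) hk3 hs S
    have hδ' : Dn (fun n : ℕ => ∃ j : ℕ, (Tz k)^[j] (s * n) ∈ S) δ := hδ
    have hvis : ∀ n : ℕ, (∃ j, Visits k S j (s * n)) ↔ ∃ j : ℕ, (Tz k)^[j] (s * n) ∈ S := fun n => FVis_ex
    have hlev : ∀ (l : ℕ) (κ ω : ℤ) (x : ℝ) (n : ℕ), Level k s S l κ ω x n ↔
        LvK k s S l κ ω (th (2 / Real.log (4 / 3)) bK x) n := by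
      intro l κ ω x n
      unfold Level LvK
      refine exists_congr fun j => ?_
      have e2 : bound x n = th (2 / Real.log (4 / 3)) bK x n := by
        unfold bound bK
        rw [th_eq]
      rw [e2, odd_ac]
      rfl
    refine ⟨δ, hpos, Dn_iff (fun n _ => (hvis n).symm) hδ', ?_, fun l κ ω x hl => ?_⟩
    · -- visits: the first visits are transferable
      classical
      refine hd_of_mn (d := ρ * δ) ?_
      have hM := Mn_of_Dn hδ'
      have key : MnS (fun n => n) (fun n => ind (fun n => n ∈ E) n * ind (fun n : ℕ => ∃ j, Visits k S j (s * n)) n)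
          (ρ * δ) := by
        apply MnS_of
        intro ε hε _
        obtain ⟨N1, h1⟩ : ∃ N1 : ℕ, ∀ N : ℕ, N1 ≤ N → |(k : ℝ)| ≤ (N : ℝ) ^ (1 / 4 : ℝ) ∧
            ∀ a ∈ S, |(a : ℝ)| ≤ (N : ℝ) ^ (1 / 4 : ℝ) := by
          have hT : Tendsto (fun N : ℕ => (N : ℝ) ^ (1 / 4 : ℝ)) atTop atTop :=
            (tendsto_rpow_atTop (by norm_num)).comp tendsto_natCast_atTop_atTop
          obtain ⟨N1, h⟩ := (hT.eventually_ge_atTop (|(k : ℝ)| + ∑ a ∈ S, |(a : ℝ)|)).exists_forall_of_atTop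
          refine ⟨N1, fun N hN => ⟨?_, fun a ha => ?_⟩⟩
          · have h3 : 0 ≤ ∑ a ∈ S, |(a : ℝ)| := Finset.sum_nonneg fun _ _ => abs_nonneg _
            linarith [h N hN]
          · have h3 := Finset.single_le_sum (f := fun a : ℤ => |(a : ℝ)|) (fun _ _ => abs_nonneg _) ha
            have h4 := abs_nonneg (k : ℝ)
            beta_reduce at h3
            linarith [h N hN]
        filter_upwards [Mn_ev hM (show 0 < ε / (2 * (ρ + 1)) by positivity),
          small_err (C * (1 + |(k : ℝ)|)) hc0 (show 0 < ε / 2 by positivity), eventually_ge_atTop (max N1 256)]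
          with X g1 g2 g3
        have hX1 : N1 ≤ X := (le_max_left _ _).trans g3
        have hX2 : 256 ≤ X := (le_max_right _ _).trans g3
        have h4 := hT X (by omega) k s (Fv k S (fun _ _ _ => 1) 0) hk2 hs (syncK_Fv hk2 hX2 (h1 X hX1).2 (h1 X hX1).1
          (fun _ _ _ => by simp) (by simp))
        unfold Tr at h4
        have e : ∀ n : ℕ, Fv k S (fun _ _ _ => 1) 0 (s * n) = ind (fun n : ℕ => ∃ j, Visits k S j (s * n)) n := by
          intro n
          by_cases h : ∃ j, Visits k S j (s * n)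
          · obtain ⟨j, hj⟩ := h
            rw [Fv_pos (j := j) hj, ind_pos (P := fun n : ℕ => ∃ j, Visits k S j (s * n)) ⟨j, hj⟩]
          · rw [Fv_neg h, ind_neg (P := fun n : ℕ => ∃ j, Visits k S j (s * n)) h]
        simp only [e, one_mul] at h4
        have e2 : ∀ n : ℕ, ind (fun n : ℕ => ∃ j : ℕ, (Tz k)^[j] (s * n) ∈ S) n =
            ind (fun n : ℕ => ∃ j, Visits k S j (s * n)) n := fun n => ind_congr (hvis n).symm
        simp only [e2] at g1
        set A := ∑ n ∈ Finset.Icc 1 X, ind (fun n => n ∈ E) n * ind (fun n : ℕ => ∃ j, Visits k S j (s * n)) n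
        set D := ∑ n ∈ Finset.Icc 1 X, ind (fun n : ℕ => ∃ j, Visits k S j (s * n)) n
        have e3 : A - ρ * δ * X = (A - ρ * D) + ρ * (D - δ * X) := by ring
        rw [e3]
        refine (abs_add_le _ _).trans ?_
        rw [abs_mul, abs_of_pos hρ]
        have h5 := mul_le_mul_of_nonneg_left g1 hρ.le
        have h6 : ρ * (ε / (2 * (ρ + 1)) * X) ≤ ε / 2 * X := by
          rw [← mul_assoc]
          apply mul_le_mul_of_nonneg_right _ (Nat.cast_nonneg _)
          rw [← mul_div_assoc, div_le_iff₀ (by positivity)]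
          nlinarith
        linarith
      exact key
    · have h1 := dens_visK hk2 hk3 hs S hδ' l κ ω hl x (fun n => ind_nonneg (fun n => n ∈ E) n) hρ.le hC hc0 hc1 hT
      have e : (fun n => ind (fun n => n ∈ E) n * ind (LvK k s S l κ ω (th (2 / Real.log (4 / 3)) bK x)) n) =
          fun n => ind (fun n => n ∈ E) n * ind (Level k s S l κ ω x) n := by
        funext n
        rw [ind_congr (hlev l κ ω x n)]
      rw [e] at h1
      have e2 : Pool.Agent.H499R2.ND.Phi x = Phi x := Pool.Agent.H499R2.ND.phi_cdf x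
      have e3 : ρ * (δ / (l : ℝ) ^ 2 * Pool.Agent.H499R2.ND.Phi x) = ρ * (δ * Phi x / l ^ 2) := by
        rw [e2]; ring
      rw [e3] at h1
      exact hd_of_mn h1

theorem evPer_inv (k x : ℤ) : EvPer k x ↔ EvPer k (T k x) := by
  constructor
  · rintro ⟨m, p, hp, h⟩
    have h1 : T k ((T k)^[m + p] x) = T k ((T k)^[m] x) := congrArg (T k) h
    rw [← Function.iterate_succ_apply' (T k), ← Function.iterate_succ_apply' (T k),
      Function.iterate_succ_apply, Function.iterate_succ_apply] at h1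
    exact ⟨m, p, hp, h1⟩
  · rintro ⟨m, p, hp, h⟩
    refine ⟨m + 1, p, hp, ?_⟩
    rw [← Function.iterate_succ_apply, ← Function.iterate_succ_apply] at h
    rw [show m + 1 + p = (m + p) + 1 by ring]
    exact h

theorem periodic_zero (k : ℤ) : Periodic k 0 := ⟨1, le_rfl, by simp [T]⟩

theorem evPer_zero (k : ℤ) : EvPer k 0 := ⟨0, 1, le_rfl, by simp [T]⟩

theorem decides_of {E : Set ℕ} {ν : ℝ} (hR : Rich (fun _ => True) (fun n => n ∈ E) ν) : Decides ν E := by
  have hinv : ∀ k : ℤ, (k % 6 = 1 ∨ k % 6 = 5) → ∀ R : Set ℤ, (∀ x, x ∈ R ↔ T k x ∈ R) →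
      ((∀ x : ℤ, x ≠ 0 → x ∈ R) ↔ ∀ s : ℤ, (s = 1 ∨ s = -1) → ∀ ε : ℝ, 0 < ε → ∃ᶠ X : ℕ in atTop,
        (count E (fun n => s * (n : ℤ) ∉ R) X : ℝ) ≤ ε * (X : ℝ) ^ (1 - ν)) := by
    intro k hk R hRinv
    have hk2 : k % 2 = 1 := by omega
    have hk3 : ¬ (3 : ℤ) ∣ k := by omega
    constructor
    · intro h s hs ε hε
      apply Filter.Eventually.frequently
      filter_upwards with X
      rw [count_eq]
      have h0 : ∑ n ∈ Finset.Icc 1 X, ind (fun n => n ∈ E) n * ind (fun n : ℕ => s * (n : ℤ) ∉ R) n = 0 := by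
        apply Finset.sum_eq_zero
        intro n hn
        rw [Finset.mem_Icc] at hn
        rw [ind_neg (P := fun n : ℕ => s * (n : ℤ) ∉ R), mul_zero]
        rw [not_not]
        apply h
        rcases hs with rfl | rfl <;> omega
      rw [h0]
      positivity
    · intro h x hx
      by_contra hcon
      have hit : ∀ (j : ℕ) (x : ℤ), x ∈ R ↔ (Tz k)^[j] x ∈ R := by
        intro j
        induction j with
        | zero => intro x; exact Iff.rfl
        | succ j ih => intro x; rw [Function.iterate_succ_apply, ← ih]; exact hRinv x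
      obtain ⟨j, y, h1, h2, -, -⟩ := non3 hk2 hk3 x.natAbs x rfl hx
      have hy0 : y ≠ 0 := by rintro rfl; exact h2 (dvd_zero _)
      have hyR : y ∈ Rᶜ := by
        intro hy
        rw [← h1, ← hit] at hy
        exact hcon hy
      obtain ⟨s, hs, hsy⟩ : ∃ s : ℤ, (s = 1 ∨ s = -1) ∧ 0 < s * y := by
        rcases lt_or_gt_of_ne hy0 with h | h
        · exact ⟨-1, Or.inr rfl, by omega⟩
        · exact ⟨1, Or.inl rfl, by omega⟩
      have hRc : ∀ x, x ∈ Rᶜ ↔ Tz k x ∈ Rᶜ := fun x => not_congr (hRinv x)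
      obtain ⟨d, -, -, h3, h4⟩ := inv_dens hk2 hk3 hs hRc
      refine rich_pos hR hk2 hs hRc (h4 ⟨y, hyR, hsy, h2⟩) h3 fun ε hε => ?_
      refine (h s hs ε hε).mono fun X hX => ?_
      rw [count_eq] at hX
      exact hX
  refine ⟨fun k hk => ⟨hinv k hk, ?_⟩, fun θ C hθ => ?_⟩
  · have h1 := hinv k hk {x | EvPer k x} (fun x => evPer_inv k x)
    constructor
    · intro h
      exact h1.1 fun x _ => h x
    · intro h x
      rcases eq_or_ne x 0 with rfl | hx
      · exact evPer_zero k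
      · exact h1.2 h x hx
  · obtain ⟨K, hK, HK⟩ := predK (C := C) hR hθ
    refine ⟨K, hK, fun B hB k hk => ?_⟩
    have hk2 : k % 2 = 1 := by omega
    have hk3 : ¬ (3 : ℤ) ∣ k := by omega
    obtain ⟨g1, g2⟩ := HK k (fun n => n ∈ B) hk2 hk3 (fun X hX => by
      have h1 := hB X hX
      rw [count_eq] at h1
      exact h1)
    have hper : ∀ a : ℤ, a ≠ 0 → (¬ (3 : ℤ) ∣ a ∨ Periodic k a) → ¬ (3 : ℤ) ∣ a := by
      rintro a ha (h | ⟨p, hp, h⟩)
      · exact h
      · exact Pool.Agent.H366R2.KGen.periodic_not_dvd hk2 hk3 ha hp h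
    refine ⟨fun a ha ha3 => ?_, fun a ha => ?_, ?_⟩
    · obtain ⟨z, h1, h2, h3, h4, h5, j, h6, h7⟩ := g1 a ha (hper a ha ha3)
      exact ⟨z, h1, h2, h4, h5, j, h6, h7⟩
    · obtain ⟨z, i, j, s, h0, h1, h2, h3, h4, h5, h6, h7⟩ := g2 a ha
      exact ⟨z, h1, h2, h3, h4, i, j, s, h0, h5, h6, h7⟩
    · constructor
      · intro h
        exact h.subset fun c hc => hc.1
      · intro h
        refine (h.insert 0).subset fun c hc => ?_
        rcases eq_or_ne c 0 with rfl | hc0
        · exact Set.mem_insert _ _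
        · obtain ⟨z, h1, h2, h3, h4, h5, j, h6, h7⟩ := g1 c hc0 (hper c hc0 (Or.inr hc))
          refine Set.mem_insert_of_mem _ ⟨hc, z, h1, h2, j, c.sign, ?_, h7⟩
          rcases lt_or_gt_of_ne hc0 with h | h
          · right; exact Int.sign_eq_neg_one_of_neg h
          · left; exact Int.sign_eq_one_of_pos h

/-- THE MAPS `3x+k` AND DIGIT OR FRACTIONAL PART CLASSES.

(A) Let `q 1, ..., q r` be pairwise coprime odd bases, let `W i` be a strongly additive integer valued function of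
the digits in base `q i` and let `m i ≥ 1` be such that the obstructions of the `W i` modulo `m i` are `1`. There are
`K` and `c > 0` such that all classes of the `n` with `W i n ≡ a i` modulo `m i` for all `i` have the properties
`Transfers` and `Laws` with the density `∏ (1 / m i)`, and `Decides` with `ν = 0`.

(B) Let `l ≥ 2` and let `α` be irrational and not a Liouville number. There are `K` and `c > 0` such that for all
polynomials `P` of degree `l` with leading coefficient `α` and all `0 ≤ u < v ≤ 1` the set of the `n` with the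
fractional part of `P n` in `[u, v)` has the properties `Transfers` and `Laws` with the density `v - u`, and `Decides`
with `ν = 0`.

(C) There is `ν₀ > 0`, depending on `l` and `α`, such that for all these polynomials and `0 ≤ ν < ν₀` the set of the
`n` for which the fractional part of `P n` is less than `n ^ (-ν)` has the property `Decides` with this `ν`. -/
theorem result :
    (∀ (r : ℕ) (q : Fin r → ℕ), (∀ i, 3 ≤ q i ∧ Odd (q i)) → (∀ i j, i ≠ j → Nat.Coprime (q i) (q j)) →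
      ∀ W : Fin r → ℕ → ℤ, (∀ i, Additive (q i) (W i)) → ∀ m : Fin r → ℕ, (∀ i, 1 ≤ m i) →
      (∀ i, obstruction (q i) (W i) (m i) = 1) → ∃ K c : ℝ, 0 < c ∧ ∀ a : Fin r → ℤ,
        Transfers (∏ i, 1 / (m i : ℝ)) K c (Class m W a) ∧ Laws (∏ i, 1 / (m i : ℝ)) (Class m W a) ∧
          Decides 0 (Class m W a)) ∧
    (∀ (l : ℕ) (α : ℝ), 2 ≤ l → Diophantine α →
      (∃ K c : ℝ, 0 < c ∧ ∀ P : Polynomial ℝ, P.natDegree ≤ l → P.coeff l = α →
        ∀ u v : ℝ, 0 ≤ u → u < v → v ≤ 1 →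
        Transfers (v - u) K c (Part P u v) ∧ Laws (v - u) (Part P u v) ∧ Decides 0 (Part P u v)) ∧
      ∃ ν₀ : ℝ, 0 < ν₀ ∧ ∀ P : Polynomial ℝ, P.natDegree ≤ l → P.coeff l = α →
        ∀ ν : ℝ, 0 ≤ ν → ν < ν₀ → Decides ν (Sparse P ν)) := by
  refine ⟨fun r q hq hc W hW m hm hobs => ?_, fun l α hl hα => ?_⟩
  · obtain ⟨C, c, hC, hc0, hc1, HT⟩ := dig_trK1 q (fun i => (hq i).1) (fun i => Nat.coprime_two_left.2 (hq i).2) hc
      W hW m hm hobs (M := 1) le_rfl
    have hρ : 0 < ∏ i, (1 / (m i : ℝ)) := Finset.prod_pos fun i _ => by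
      have : (0 : ℝ) < m i := by exact_mod_cast hm i
      positivity
    refine ⟨C, c, hc0, fun a => ?_⟩
    have h := HT a 0
    rw [ind_all] at h
    have e : ind (Cl m W a 1 0) = ind (fun n => n ∈ Class m W a) := by
      funext n
      apply ind_congr
      unfold Cl Class
      simp
    rw [e] at h
    exact ⟨transfers_of h, laws_of hρ hC hc0 hc1 h, decides_of (rich_of hρ hC hc0 hc1 h)⟩
  · obtain ⟨l, rfl⟩ : ∃ l', l = l' + 1 := ⟨l - 1, by omega⟩
    have hα' : Dioph α := hα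
    refine ⟨?_, ?_⟩
    · obtain ⟨C, c, hC, hc0, hc1, HT⟩ := pol_trK (k := l) (by omega) hα' (M := 1) le_rfl 0
      refine ⟨C, c, hc0, fun P hP hPc u v hu huv hv => ?_⟩
      have h := HT P hP hPc u v hu huv.le hv
      rw [ind_all] at h
      have e : ind (Fr 1 0 P u v) = ind (fun n => n ∈ Part P u v) := by
        funext n
        apply ind_congr
        unfold Fr Part
        simp
      rw [e] at h
      have hρ : 0 < v - u := by linarith
      exact ⟨transfers_of h, laws_of hρ hC hc0 hc1 h, decides_of (rich_of hρ hC hc0 hc1 h)⟩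
    · obtain ⟨ν0, hν0, -, HR⟩ := rich_pol (k := l) (by omega) hα' (M := 1) le_rfl 0
      refine ⟨ν0, hν0, fun P hP hPc ν hν1 hν2 => decides_of ?_⟩
      have h := HR P hP hPc ν hν1 hν2
      have e : (fun n : ℕ => ((1 : ℕ) : ℤ) ∣ n - 0) = fun _ : ℕ => True := by funext n; simp
      have e2 : (fun n : ℕ => ((1 : ℕ) : ℤ) ∣ n - 0 ∧ Int.fract (P.eval (n : ℝ)) < (n : ℝ) ^ (-ν)) =
          fun n : ℕ => n ∈ Sparse P ν := by
        funext n
        unfold Sparse
        simp
      rw [e, e2] at h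
      exact h

end Pool.Agent.Results.MP_7f88e4_nt.DigitClasses
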