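import Pool.Agent.Results.MP_7f88e4_nt.PolynomialPairs
import Pool.Agent.X174.WinZ

/-!
# The maps `3 x + g n` started at `f n`, for all `n` in windows around thin sequences

Let `f` and `g ≠ 0` be polynomials with integer coefficients, `deg g < deg f`, and `ε > 0`. There is `δ > 0` such that
for every sequence `v ≥ 1` of exponent of convergence at most `τ` (for `v_i = i ^ a` this is `1 / a`, for `v_i = b ^ i`
it is `0`) and every `θ < 1` there is a set `E` of Hausdorff dimension at most `(1 - δ + τ) / (1 - θ)` such that for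
each `α > 0` outside `E`, for all but finitely many `i` and ALL integers `n` with `||n| - α v_i| ≤ v_i ^ θ` and `g n` odd,
the first `log_2 |n|` terms of the trajectory of `f n` under `T_{3, g n}` are `(√3 / 2)^j |f n|` up to a factor
`|n| ^ ε`, and some term is at most `|f n|^(1 - (1 - log 3 / log 4) / deg f + ε)`.

The numbers of exceptions are from the starting result `PolynomialPairs`, the passage to windows from the starting module
`Pool.Agent.Y854.GM.Win`.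
-/

set_option autoImplicit false

namespace Pool.Agent.Results.MP_7f88e4_nt.PolynomialPairsInWindows

open Polynomial
open Pool.Agent.X174 (cumZ winZ fin_absZ)

/-- the exponent of convergence of the sequence `v` is at most `τ` -/
def ExpLe (v : ℕ → ℝ) (τ : ℝ) : Prop := ∀ t : ℝ, τ < t → Summable (fun n : ℕ => (v n) ^ (-t))

/-- The `3 x + k` map `T_{3,k}`. -/
def T (k x : ℤ) : ℤ := if x % 2 = 0 then x / 2 else (3 * x + k) / 2

/-- For `2 ^ j ≤ Y` the term `j` of the trajectory of `x` under `T_{3,k}` has absolute value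
`(√3 / 2) ^ j |x|`, up to a factor between `Y ^ (-ε)` and `Y ^ ε`. -/
def Follows (k : ℤ) (ε Y : ℝ) (x : ℤ) : Prop :=
  ∀ j : ℕ, (2 : ℝ) ^ j ≤ Y →
    Y ^ (-ε) * (Real.sqrt 3 / 2) ^ j * |(x : ℝ)| ≤ |(((T k)^[j] x : ℤ) : ℝ)| ∧
    |(((T k)^[j] x : ℤ) : ℝ)| ≤ Y ^ ε * (Real.sqrt 3 / 2) ^ j * |(x : ℝ)|

lemma follows_mono {k x : ℤ} {ε ε' Y Y' : ℝ} (hY : Y ≤ Y') (hY1 : 1 ≤ Y) (h : Y' ^ ε ≤ Y ^ ε')
    (hF : PolynomialPairs.Follows k ε Y' x) : Follows k ε' Y x := by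
  intro j hj
  obtain ⟨h1, h2⟩ := hF j (hj.trans hY)
  have hYp : 0 < Y := by linarith
  have hYp' : 0 < Y' := by linarith
  have h3 : Y ^ (-ε') ≤ Y' ^ (-ε) := by
    rw [Real.rpow_neg hYp.le, Real.rpow_neg hYp'.le]
    exact inv_anti₀ (by positivity) h
  constructor
  · refine le_trans ?_ h1
    exact mul_le_mul_of_nonneg_right (mul_le_mul_of_nonneg_right h3 (by positivity)) (abs_nonneg _)
  · refine h2.trans ?_
    exact mul_le_mul_of_nonneg_right (mul_le_mul_of_nonneg_right h (by positivity)) (abs_nonneg _)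

/-- **Theorem.** Let `f`, `g` be polynomials with integer coefficients, `g ≠ 0`, `deg g < deg f`, and `ε > 0`. There is
`δ > 0` such that for every sequence `v ≥ 1` of exponent of convergence at most `τ ≥ 0` and every `θ < 1` there is a set
`E` of Hausdorff dimension at most `(1 - δ + τ) / (1 - θ)` such that for each `α > 0` outside `E`, for all but finitely
many `i` and ALL integers `n` with `||n| - α v_i| ≤ v_i ^ θ` and `g n` odd, the first `log_2 |n|` terms of the trajectory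
of `f n` under `T_{3, g n}` are `(√3 / 2) ^ j |f n|` up to a factor between `|n| ^ (-ε)` and `|n| ^ ε`, and some term has
absolute value at most `|f n|^(1 - (1 - log 3 / log 4) / deg f + ε)`. The sequences `v_i = (i + 1) ^ a` and `v_i = b ^ i`
have exponent of convergence at most `1 / a` and `0`. -/
theorem result (f g : ℤ[X]) (hg : g ≠ 0) (hdeg : g.natDegree < f.natDegree) (ε : ℝ) (hε : 0 < ε) :
    (∃ δ : ℝ, 0 < δ ∧ ∀ (v : ℕ → ℝ) (τ θ : ℝ), (∀ i, 1 ≤ v i) → 0 ≤ τ → ExpLe v τ → θ < 1 →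
      ∃ E : Set ℝ, dimH E ≤ ENNReal.ofReal ((1 - δ + τ) / (1 - θ)) ∧
        ∀ α : ℝ, 0 < α → α ∉ E → ∃ i₀ : ℕ, ∀ i : ℕ, i₀ ≤ i →
          ∀ n : ℤ, |(|(n : ℝ)|) - α * v i| ≤ (v i) ^ θ → g.eval n % 2 = 1 →
            Follows (g.eval n) ε |(n : ℝ)| (f.eval n) ∧
            ∃ j : ℕ, |(((T (g.eval n))^[j] (f.eval n) : ℤ) : ℝ)| ≤
              |((f.eval n : ℤ) : ℝ)| ^ (1 - (1 - Real.log 3 / Real.log 4) / f.natDegree + ε)) ∧
    (∀ a : ℝ, 0 < a → ExpLe (fun n : ℕ => ((n : ℝ) + 1) ^ a) (1 / a)) ∧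
    (∀ b : ℝ, 1 < b → ExpLe (fun n : ℕ => b ^ n) 0) := by
  refine ⟨?_, fun κ hκ => Pool.Agent.Y854.GM.expLe_pow κ hκ, fun b hb => Pool.Agent.Y854.GM.expLe_geom b hb⟩
  obtain ⟨δ1, K1, hδ1, hK1, h1⟩ := (PolynomialPairs.result f g hg hdeg (ε / 2) (by positivity)).1
  obtain ⟨δ2, K2, hδ2, hK2, h2⟩ := (PolynomialPairs.result f g hg hdeg ε hε).2
  set δ : ℝ := min (min δ1 δ2) (1 / 2) with hδdef
  have hδ : 0 < δ := lt_min (lt_min hδ1 hδ2) (by norm_num)
  have hδa : δ ≤ δ1 := (min_le_left _ _).trans (min_le_left _ _)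
  have hδb : δ ≤ δ2 := (min_le_left _ _).trans (min_le_right _ _)
  have hδc : δ ≤ 1 / 2 := min_le_right _ _
  refine ⟨δ, hδ, fun v τ θ hv hτ hE hθ => ?_⟩
  -- trajectories
  set S1 : Set ℤ := {n : ℤ | g.eval n % 2 = 1 ∧ ¬ Follows (g.eval n) ε |(n : ℝ)| (f.eval n)} with hS1
  obtain ⟨C1, hC1⟩ := cumZ S1 (1 - δ) (K1 * 5) (by linarith) (by positivity) 5 (fun K hK => by
    have hKr : (5 : ℝ) ≤ K := by exact_mod_cast hK
    have hfin : {n : ℤ | (-2 * (K : ℤ) - 1) < n ∧ (n : ℝ) ≤ ((-2 * (K : ℤ) - 1 : ℤ) : ℝ) + (4 * K + 1) ∧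
        g.eval n % 2 = 1 ∧ ¬ PolynomialPairs.Follows (g.eval n) (ε / 2) (4 * K + 1) (f.eval n)}.Finite := by
      apply (fin_absZ (2 * K + 1)).subset
      rintro n ⟨h3, h4, -⟩
      have h5 : (((-2 * (K : ℤ) - 1 : ℤ)) : ℝ) < n := by exact_mod_cast h3
      push_cast at h4 h5
      show |(n : ℝ)| ≤ _
      rw [abs_le]
      constructor <;> linarith
    have hsub : {k : ℤ | k ∈ S1 ∧ (K : ℝ) < |(k : ℝ)| ∧ |(k : ℝ)| ≤ 2 * K} ⊆
        {n : ℤ | (-2 * (K : ℤ) - 1) < n ∧ (n : ℝ) ≤ ((-2 * (K : ℤ) - 1 : ℤ) : ℝ) + (4 * K + 1) ∧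
        g.eval n % 2 = 1 ∧ ¬ PolynomialPairs.Follows (g.eval n) (ε / 2) (4 * K + 1) (f.eval n)} := by
      rintro n ⟨⟨h3, h4⟩, h5, h6⟩
      have h7 := abs_le.1 h6
      refine ⟨?_, ?_, h3, fun h8 => h4 ?_⟩
      · have : ((-2 * (K : ℤ) - 1 : ℤ) : ℝ) < n := by push_cast; linarith
        exact_mod_cast this
      · push_cast
        linarith
      · refine follows_mono (by linarith) (by linarith) ?_ h8
        calc (4 * (K : ℝ) + 1) ^ (ε / 2) ≤ (|(n : ℝ)| ^ (2 : ℝ)) ^ (ε / 2) := by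
              apply Real.rpow_le_rpow (by positivity) _ (by positivity)
              rw [Real.rpow_two]
              nlinarith
          _ = |(n : ℝ)| ^ ε := by
              rw [← Real.rpow_mul (abs_nonneg _)]
              congr 1
              ring
    refine (Nat.cast_le.2 (Set.ncard_le_ncard hsub hfin)).trans ((h1 (-2 * (K : ℤ) - 1) (4 * K + 1) (by linarith)).trans ?_)
    rw [mul_assoc]
    apply mul_le_mul_of_nonneg_left _ hK1.le
    calc (4 * (K : ℝ) + 1) ^ (1 - δ1) ≤ (4 * (K : ℝ) + 1) ^ (1 - δ) :=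
          Real.rpow_le_rpow_of_exponent_le (by linarith) (by linarith)
      _ ≤ (5 * (K : ℝ)) ^ (1 - δ) := Real.rpow_le_rpow (by positivity) (by linarith) (by linarith)
      _ = 5 ^ (1 - δ) * (K : ℝ) ^ (1 - δ) := Real.mul_rpow (by norm_num) (by positivity)
      _ ≤ 5 * (K : ℝ) ^ (1 - δ) := by
          apply mul_le_mul_of_nonneg_right _ (by positivity)
          calc (5 : ℝ) ^ (1 - δ) ≤ 5 ^ (1 : ℝ) := Real.rpow_le_rpow_of_exponent_le (by norm_num) (by linarith)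
            _ = 5 := Real.rpow_one 5)
  obtain ⟨E1, hE1, hE1'⟩ := winZ S1 hv hτ hE (by linarith : 0 ≤ 1 - δ) hθ ⟨C1, hC1⟩
  -- small terms
  set S2 : Set ℤ := {n : ℤ | g.eval n % 2 = 1 ∧ ∀ j : ℕ,
        |((f.eval n : ℤ) : ℝ)| ^ (1 - (1 - Real.log 3 / Real.log 4) / f.natDegree + ε) <
          |(((T (g.eval n))^[j] (f.eval n) : ℤ) : ℝ)|} with hS2
  obtain ⟨E2, hE2, hE2'⟩ := winZ S2 hv hτ hE (by linarith : 0 ≤ 1 - δ) hθ ⟨K2, fun X hX => by
    refine ⟨(fin_absZ X).subset fun n hn => hn.2, ?_⟩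
    have e : {t : ℤ | t ∈ S2 ∧ |(t : ℝ)| ≤ X} = {n : ℤ | |(n : ℝ)| ≤ X ∧ g.eval n % 2 = 1 ∧ ∀ j : ℕ,
        |((f.eval n : ℤ) : ℝ)| ^ (1 - (1 - Real.log 3 / Real.log 4) / f.natDegree + ε) <
          |(((PolynomialPairs.T (g.eval n))^[j] (f.eval n) : ℤ) : ℝ)|} := by
      ext n
      constructor
      · rintro ⟨⟨h3, h4⟩, h5⟩
        exact ⟨h5, h3, h4⟩
      · rintro ⟨h5, h3, h4⟩
        exact ⟨⟨h3, h4⟩, h5⟩
    rw [e]
    exact (h2 X hX).trans (mul_le_mul_of_nonneg_left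
      (Real.rpow_le_rpow_of_exponent_le hX (by linarith)) hK2.le)⟩
  refine ⟨E1 ∪ E2, ?_, fun α hα hαE => ?_⟩
  · rw [dimH_union]
    exact max_le hE1 hE2
  · obtain ⟨n1, hn1⟩ := hE1' α hα (fun h => hαE (Or.inl h))
    obtain ⟨n2, hn2⟩ := hE2' α hα (fun h => hαE (Or.inr h))
    refine ⟨max n1 n2, fun i hi n hw hodd => ⟨?_, ?_⟩⟩
    · by_contra hcon
      exact hn1 i ((le_max_left _ _).trans hi) n hw ⟨hodd, hcon⟩
    · by_contra hcon
      push Not at hcon
      exact hn2 i ((le_max_right _ _).trans hi) n hw ⟨hodd, hcon⟩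

end Pool.Agent.Results.MP_7f88e4_nt.PolynomialPairsInWindows
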