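import Mathlib
import Pool.Agent.X61.RT.Units

/-!
# The primes dividing the terms of the orbits of the `3x+k` maps

There are absolute constants `c`, `C > 0` such that for all odd `k`: if the first `N` terms of an orbit
of `T_{3,k}` are different, and `P` is any set of primes with `|P| + ω(k) ≤ c log N`, then at most
`C N / log N` of the odd ones among these terms are composed of primes in `P`.
-/

set_option autoImplicit false

namespace Pool.Agent.Results.MP_7f88e4_nt.PrimesOfOrbits

open Finset

/-- The `3x+k` map. -/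
def T (k x : ℤ) : ℤ := if x % 2 = 0 then x / 2 else (3 * x + k) / 2

/-- All primes dividing `n` are in `P`. -/
def Composed (P : Finset ℕ) (n : ℤ) : Prop := ∀ p : ℕ, p.Prime → (p : ℤ) ∣ n → p ∈ P

lemma log_five (J : ℕ) : Nat.log 2 (5 ^ J) ≤ 3 * J := by
  have h1 : 5 ^ J ≤ 2 ^ (3 * J) := by
    rw [pow_mul]
    exact Nat.pow_le_pow_left (by norm_num) J
  calc Nat.log 2 (5 ^ J) ≤ Nat.log 2 (2 ^ (3 * J)) := Nat.log_mono_right h1
    _ = 3 * J := Nat.log_pow (by norm_num) _

open Classical in
/-- **Primes of the terms.** There are `c`, `C > 0` such that for all odd integers `k`, all integers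
`x`, all `N ≥ 2` for which the first `N` terms of the orbit of `x` under `T_{3,k}` are different, and
all sets `P` of primes with `|P| + ω(k) ≤ c log N`, at most `C N / log N` of the `i < N` are such that
`T_{3,k}^i (x)` is odd and composed of primes in `P`. -/
theorem result : ∃ c C : ℝ, 0 < c ∧ 0 < C ∧ ∀ (k x : ℤ) (N : ℕ) (P : Finset ℕ), k % 2 = 1 → 2 ≤ N →
      (∀ i < N, ∀ j < N, (T k)^[i] x = (T k)^[j] x → i = j) →
      (P.card : ℝ) + (k.natAbs.primeFactors.card : ℝ) ≤ c * Real.log N →
      (((range N).filter fun i => (T k)^[i] x % 2 = 1 ∧ Composed P ((T k)^[i] x)).card : ℝ) ≤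
          C * (N / Real.log N) := by
  obtain ⟨B0, hB0, hcount⟩ := Pool.Agent.X61.RT.count_units
  have hB1 : (1 : ℝ) < B0 := by exact_mod_cast (by omega : 1 < B0)
  set β : ℝ := Real.log B0 with hβ
  have hβ0 : 0 < β := Real.log_pos hB1
  have hlog5 : 1 < Real.log 5 := by
    rw [Real.lt_log_iff_exp_lt (by norm_num)]
    have := Real.exp_one_lt_d9
    linarith
  set c : ℝ := 1 / (2 * (3 * Real.log 5 + 10 * β)) with hc
  have hc0 : 0 < c := by positivity
  have hc1 : c ≤ 1 := by
    rw [hc, div_le_one (by positivity)]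
    linarith
  refine ⟨c, 27 * B0 * 2 + 2 / c, hc0, by positivity, ?_⟩
  intro k x N P hk hN hinj hP
  have hT : T k = Pool.Agent.X61.RT.Ta 3 k := rfl
  have hk0 : k ≠ 0 := by intro h; rw [h] at hk; omega
  have hN1 : (1 : ℝ) < N := by exact_mod_cast (by omega : 1 < N)
  have hN0 : (0 : ℝ) < N := by linarith
  have hlogN : 0 < Real.log N := Real.log_pos hN1
  have hit : ∀ i j : ℕ, (fun i : ℕ => i + 1)^[j] i = i + j := by
    intro i j
    induction j with
    | zero => rfl
    | succ j ih => rw [Function.iterate_succ_apply', ih]; rfl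
  set Bad := (range N).filter fun i => (T k)^[i] x % 2 = 1 ∧ Composed P ((T k)^[i] x) with hBad
  have h1 := Pool.Agent.X61.RT.rare_of (fun i : ℕ => i + 1) Set.univ N Bad
    (Set.mapsTo_univ _ _) (fun i _ j _ h => by simpa using h) hN (fun _ _ => Set.mem_univ _)
    (by
      intro J
      refine ⟨range (N + J), by rw [card_range], ?_⟩
      intro i hi j hj
      rw [hit, Finset.mem_range]
      have := Finset.mem_range.1 (Finset.mem_filter.1 hi).1
      omega) c hc0 hc1 (27 * B0 * 2 * (N / Real.log N)) (by
      set J : ℕ := ⌊c * Real.log N⌋₊ with hJ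
      have hJ1 : (J : ℝ) ≤ c * Real.log N := Nat.floor_le (by positivity)
      set B1 := Bad.filter fun b => ∃ j, 1 ≤ j ∧ j ≤ J ∧ (fun i : ℕ => i + 1)^[j] b ∈ Bad with hB1
      set H : ℕ := 5 ^ J with hH
      have hvinj : Set.InjOn (fun i : ℕ => (T k)^[i] x) (B1 : Set ℕ) := by
        intro i hi j hj h
        exact hinj i (Finset.mem_range.1 (Finset.mem_filter.1 (Finset.mem_filter.1 hi).1).1) j
          (Finset.mem_range.1 (Finset.mem_filter.1 (Finset.mem_filter.1 hj).1).1) h
      have h2 := hcount H k P (Nat.one_le_pow _ _ (by norm_num)) hk0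
        (B1.image fun i : ℕ => (T k)^[i] x) (by
          intro z hz
          obtain ⟨i, hi, rfl⟩ := Finset.mem_image.1 hz
          obtain ⟨hi1, j, hj1, hj2, hj3⟩ := Finset.mem_filter.1 hi
          obtain ⟨-, hodd, hcomp⟩ := Finset.mem_filter.1 hi1
          have hj4 := Finset.mem_filter.1 hj3
          rw [hit] at hj4
          obtain ⟨-, hodd', hcomp'⟩ := hj4
          refine ⟨by intro h; rw [h] at hodd; omega, fun p hp hpd => hcomp p hp
            (Int.natCast_dvd.2 hpd), ?_⟩
          obtain ⟨A, B, E, g1, g2, g3, g4, g5, g6, g7⟩ := Pool.Agent.X61.RT.Ta_rel (a := 3)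
            (k := k) rfl hk (by norm_num) (x := (T k)^[i] x) (by omega) 5 (by norm_num) hj1
          have hpow : ((5 : ℕ) : ℤ) ^ j ≤ (H : ℤ) := by
            rw [hH]
            push_cast
            exact pow_le_pow_right₀ (by norm_num) hj2
          refine ⟨A, B, E, (T k)^[i + j] x, g1, g2, g3, g4.trans hpow, g5.trans hpow,
            g6.trans hpow, by intro h; rw [h] at hodd'; omega,
            fun p hp hpd => hcomp' p hp (Int.natCast_dvd.2 hpd), ?_⟩
          rw [g7, add_comm i j, Function.iterate_add_apply, hT])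
      rw [Finset.card_image_of_injOn hvinj] at h2
      refine h2.trans ?_
      have h3 : Nat.log 2 H ≤ 3 * J := log_five J
      have h4 : (B0 : ℝ) ^ (P.card + k.natAbs.primeFactors.card + 3 * Nat.log 2 H + 1) ≤
          B0 * Real.exp (β * (10 * (c * Real.log N))) := by
        rw [pow_succ, mul_comm]
        refine mul_le_mul_of_nonneg_left ?_ (by linarith)
        rw [← Real.exp_log (by positivity : (0 : ℝ) <
          (B0 : ℝ) ^ (P.card + k.natAbs.primeFactors.card + 3 * Nat.log 2 H)), Real.log_pow]
        refine Real.exp_le_exp.2 ?_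
        rw [mul_comm]
        refine mul_le_mul_of_nonneg_left ?_ hβ0.le
        push_cast
        have h5 : ((Nat.log 2 H : ℕ) : ℝ) ≤ 3 * J := by exact_mod_cast h3
        linarith
      have h5 : (H : ℝ) ^ 3 ≤ Real.exp (3 * (c * Real.log N * Real.log 5)) := by
        rw [hH]
        push_cast
        rw [← pow_mul, ← Real.exp_log (by positivity : (0 : ℝ) < (5 : ℝ) ^ (J * 3)), Real.log_pow]
        refine Real.exp_le_exp.2 ?_
        push_cast
        have := mul_le_mul_of_nonneg_right hJ1 (by linarith : 0 ≤ Real.log 5)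
        linarith
      have h6 : Real.exp (3 * (c * Real.log N * Real.log 5)) * Real.exp (β * (10 * (c * Real.log N)))
          = (N : ℝ) ^ (1 - 1 / 2 : ℝ) := by
        rw [← Real.exp_add, Real.rpow_def_of_pos hN0]
        congr 1
        rw [hc]
        field_simp
        ring
      have h7 := Pool.Agent.X61.RT.pow_le_div (1 / 2) (by norm_num) hN1
      calc 27 * (H : ℝ) ^ 3 *
            (B0 : ℝ) ^ (P.card + k.natAbs.primeFactors.card + 3 * Nat.log 2 H + 1)
          ≤ 27 * Real.exp (3 * (c * Real.log N * Real.log 5)) *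
            (B0 * Real.exp (β * (10 * (c * Real.log N)))) := by gcongr
        _ = 27 * B0 * (Real.exp (3 * (c * Real.log N * Real.log 5)) *
            Real.exp (β * (10 * (c * Real.log N)))) := by ring
        _ = 27 * B0 * (N : ℝ) ^ (1 - 1 / 2 : ℝ) := by rw [h6]
        _ ≤ 27 * B0 * (1 / (1 / 2) * (N / Real.log N)) := by gcongr
        _ = _ := by ring)
  calc (Bad.card : ℝ) ≤ _ := h1
    _ = _ := by ring

end Pool.Agent.Results.MP_7f88e4_nt.PrimesOfOrbits
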