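import Mathlib
import Pool.Agent.X61.RT.Pairs

/-!
# The radicals of the elements of primitive cycles of the `3x+k` maps, for all `k` at once

Consider any finite set of primitive cycles (`gcd(x, k) = 1`) of the maps `T_{3,k}`, `k` odd, with `N`
elements in all. All odd elements `x`, except `O (N / log N)` of them, satisfy
`rad(k) rad(x)^2 > N ^ (3/2 - ε)`. The constant depends on `ε` only.
-/

set_option autoImplicit false

namespace Pool.Agent.Results.MP_7f88e4_nt.RadicalsOfPrimitiveCycles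

open Finset

/-- The `3x+k` map. -/
def T (k x : ℤ) : ℤ := if x % 2 = 0 then x / 2 else (3 * x + k) / 2

/-- The radical: the product of the primes dividing `n`. -/
def radical (n : ℤ) : ℕ := ∏ p ∈ n.natAbs.primeFactors, p

lemma iter (s : ℤ × ℤ) (j : ℕ) :
    (fun s : ℤ × ℤ => (s.1, T s.1 s.2))^[j] s = (s.1, (T s.1)^[j] s.2) := by
  induction j with
  | zero => rfl
  | succ j ih =>
    rw [Function.iterate_succ_apply', ih, Function.iterate_succ_apply']

/-- **Primitive cycles.** For every `ε > 0` there is `C` such that for every finite set `E` of at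
least two pairs `(k, x)` of coprime integers, `k` odd, which is mapped onto itself by
`(k, x) ↦ (k, T_{3,k} (x))` (that is, `E` consists of the elements `x` of primitive cycles of the maps
`T_{3,k}`), at most `C |E| / log |E|` of the pairs in `E` have `x` odd and
`rad(k) rad(x)^2 ≤ |E| ^ (3/2 - ε)`. -/
theorem result : ∀ ε : ℝ, 0 < ε → ∃ C : ℝ, 0 < C ∧ ∀ E : Finset (ℤ × ℤ), 2 ≤ E.card →
    (∀ s ∈ E, s.1 % 2 = 1 ∧ IsCoprime s.1 s.2) → E.image (fun s => (s.1, T s.1 s.2)) = E →
      ((E.filter fun s => s.2 % 2 = 1 ∧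
        (radical s.1 : ℝ) * (radical s.2 : ℝ) ^ 2 ≤ (E.card : ℝ) ^ (3 / 2 - ε)).card : ℝ) ≤
          C * (E.card / Real.log E.card) := by
  classical
  intro ε0 hε0
  set ε : ℝ := min ε0 (1 / 2) with hεdef
  have hε : 0 < ε := lt_min hε0 (by norm_num)
  have hε2 : ε ≤ 1 / 2 := min_le_right _ _
  obtain ⟨D, hD, hmain⟩ := Pool.Agent.X61.RT.count_pairs (ε / 4) (by linarith) (by linarith)
  set c : ℝ := ε / 24 / ((8 : ℕ) * Real.log (5 : ℕ)) with hc
  have hlog5 : (1 / 2 : ℝ) < Real.log (5 : ℕ) := by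
    have h1 := Real.log_two_gt_d9
    have h2 : Real.log 2 ≤ Real.log 5 := Real.log_le_log (by norm_num) (by norm_num)
    have h3 : Real.log ((5 : ℕ) : ℝ) = Real.log 5 := by norm_num
    rw [h3]
    linarith
  have hc0 : 0 < c := by positivity
  have hc1 : c ≤ 1 := by
    rw [hc, div_le_one (by positivity)]
    push_cast at hlog5 ⊢
    linarith
  refine ⟨D * (1 / (ε / 4)) + 2 / c, by positivity, ?_⟩
  intro E hN hE hE2
  set f : ℤ × ℤ → ℤ × ℤ := fun s => (s.1, T s.1 s.2) with hf
  set N : ℕ := E.card with hNdef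
  have hN1 : (1 : ℝ) < N := by
    have : 1 < N := by omega
    exact_mod_cast this
  have hN0 : (0 : ℝ) < N := by linarith
  have hmaps : Set.MapsTo f (E : Set (ℤ × ℤ)) E := by
    intro x hx
    have : f x ∈ E.image f := Finset.mem_image_of_mem f hx
    rw [hE2] at this
    exact this
  have hinj : Set.InjOn f (E : Set (ℤ × ℤ)) := by
    rw [← Finset.card_image_iff, hE2]
  have hit : ∀ x ∈ E, ∀ j, f^[j] x ∈ E := by
    intro x hx j
    induction j with
    | zero => exact hx
    | succ j ih => rw [Function.iterate_succ_apply']; exact hmaps ih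
  set Bad := E.filter fun s => s.2 % 2 = 1 ∧
        (radical s.1 : ℝ) * (radical s.2 : ℝ) ^ 2 ≤ (N : ℝ) ^ (3 / 2 - ε0) with hBad
  set Z : ℝ := (N : ℝ) ^ (3 / 2 - ε) with hZ
  have hZ1 : 1 ≤ Z := Real.one_le_rpow hN1.le (by linarith)
  have hZ0 : 0 < Z := by linarith
  have hbad : ∀ s ∈ Bad, (radical s.1 : ℝ) * (radical s.2 : ℝ) ^ 2 ≤ Z := by
    intro s hs
    refine (Finset.mem_filter.1 hs).2.2.trans ?_
    exact Real.rpow_le_rpow_of_exponent_le hN1.le (by linarith [min_le_left ε0 (1 / 2)])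
  have h1 := Pool.Agent.X61.RT.rare_of f (E : Set (ℤ × ℤ)) N Bad hmaps hinj hN
    (fun b hb => (Finset.mem_filter.1 hb).1)
    (fun J => ⟨E, by omega, fun b hb j _ => hit b (Finset.mem_filter.1 hb).1 j⟩) c hc0 hc1
    (D * (1 / (ε / 4)) * (N / Real.log N)) (by
      set J : ℕ := ⌊c * Real.log N⌋₊ with hJ
      set H : ℕ := 5 ^ J with hH
      have h2 := hmain H Z (Nat.one_le_pow _ _ (by norm_num)) hZ1
        (Bad.filter fun b => ∃ j, 1 ≤ j ∧ j ≤ J ∧ f^[j] b ∈ Bad) (by
          intro s hs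
          obtain ⟨hs1, j, hj1, hj2, hj3⟩ := Finset.mem_filter.1 hs
          obtain ⟨hsE, hodd, -⟩ := Finset.mem_filter.1 hs1
          obtain ⟨hk, hcop⟩ := hE s hsE
          have hk0 : s.1 ≠ 0 := by intro h; rw [h] at hk; omega
          have hx0 : s.2 ≠ 0 := by intro h; rw [h] at hodd; omega
          refine ⟨hk0, hx0, hcop, ?_⟩
          obtain ⟨A, B, F, g1, g2, g3, g4, g5, g6, g7⟩ := Pool.Agent.X61.RT.Ta_rel (a := 3)
            (k := s.1) rfl hk (by norm_num) (x := s.2) (by omega) 5 (by norm_num) hj1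
          have hpow : ((5 : ℕ) : ℤ) ^ j ≤ (H : ℤ) := by
            rw [hH]
            push_cast
            exact pow_le_pow_right₀ (by norm_num) hj2
          have hy := Finset.mem_filter.1 hj3
          rw [iter] at hy
          obtain ⟨-, hy2, -⟩ := hy
          have hb2 := hbad _ hj3
          rw [iter] at hb2
          have hb1 := hbad s hs1
          simp only at hy2 hb2
          refine ⟨A, B, F, (T s.1)^[j] s.2, g1, g2, g3, g4.trans hpow, g5.trans hpow, g6.trans hpow,
            ?_, g7, ?_⟩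
          · intro h
            rw [h] at hy2
            omega
          · have r1 := Pool.Agent.X61.RT.one_le_rad s.1
            have r2 := Pool.Agent.X61.RT.one_le_rad s.2
            have r3 := Pool.Agent.X61.RT.one_le_rad ((T s.1)^[j] s.2)
            have e1 : (Pool.Agent.X61.RT.rad s.1 : ℝ) * (Pool.Agent.X61.RT.rad s.2 : ℝ) ^ 2 ≤ Z := hb1
            have e2 : (Pool.Agent.X61.RT.rad s.1 : ℝ) *
              (Pool.Agent.X61.RT.rad ((T s.1)^[j] s.2) : ℝ) ^ 2 ≤ Z := hb2
            set u : ℝ := (Pool.Agent.X61.RT.rad s.1 : ℝ) with hu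
            set v : ℝ := (Pool.Agent.X61.RT.rad s.2 : ℝ) with hv
            set w : ℝ := (Pool.Agent.X61.RT.rad ((T s.1)^[j] s.2) : ℝ) with hw
            have e3 : 2 * (u * v * w) ≤ u * v ^ 2 + u * w ^ 2 := by
              have : 0 ≤ u * (v - w) ^ 2 := by positivity
              nlinarith
            linarith)
      refine h2.trans ?_
      have h3 : (H : ℝ) ^ 8 ≤ (N : ℝ) ^ (ε / 24) := by
        have := Pool.Agent.X61.RT.pow_floor_le 5 (by norm_num) (ε / 24) (by positivity) 8 hN1
        rw [← hc, ← hJ, ← hH] at this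
        exact this
      have h4 : Z ^ (2 / 3 + ε / 4) ≤ (N : ℝ) ^ (1 - 7 / 24 * ε) := by
        rw [hZ, ← Real.rpow_mul hN0.le]
        refine Real.rpow_le_rpow_of_exponent_le hN1.le ?_
        nlinarith
      have h5 := Pool.Agent.X61.RT.pow_le_div (ε / 4) (by positivity) hN1
      calc D * (H : ℝ) ^ 8 * Z ^ (2 / 3 + ε / 4)
          ≤ D * (N : ℝ) ^ (ε / 24) * (N : ℝ) ^ (1 - 7 / 24 * ε) := by gcongr
        _ = D * (N : ℝ) ^ (1 - ε / 4) := by
            rw [mul_assoc, ← Real.rpow_add hN0]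
            ring_nf
        _ ≤ D * (1 / (ε / 4) * (N / Real.log N)) := by gcongr
        _ = _ := by ring)
  calc (Bad.card : ℝ) ≤ _ := h1
    _ = _ := by ring

end Pool.Agent.Results.MP_7f88e4_nt.RadicalsOfPrimitiveCycles
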